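import Pool.Agent.SSF.Stmts

/-!
# Squad SSF, row PAM: existence of the pieces
-/

set_option autoImplicit false

open Set Topology
open scoped BigOperators

namespace Pool.Agent.SSF.H63

open Pool.Agent.LSG Pool.Agent.LPR Pool.Agent.SSF

/-- the function comparable to the distance to the complement -/
theorem pam_rho (S M : Type) [TopologicalSpace S] [TopologicalSpace.MetrizableSpace S]
    [MetricSpace M] (O : Set (S × M)) (hO : IsOpen O) :
    ∃ ρ : C(S × M, ℝ), (∀ x, 0 ≤ ρ x ∧ ρ x ≤ 1) ∧ (∀ x, ρ x ≠ 0 ↔ x ∈ O) ∧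
      ∀ (s : S) (t t' : M), |ρ (s, t) - ρ (s, t')| ≤ dist t t' := by
  by_cases hne : (Oᶜ).Nonempty
  · let _ : MetricSpace S := TopologicalSpace.metrizableSpaceMetric S
    refine ⟨⟨fun x => min 1 (Metric.infDist x Oᶜ),
      continuous_const.min (Metric.continuous_infDist_pt _)⟩, ?_, ?_, ?_⟩
    · intro x
      exact ⟨le_min zero_le_one Metric.infDist_nonneg, min_le_left _ _⟩
    · intro x
      show min 1 (Metric.infDist x Oᶜ) ≠ 0 ↔ x ∈ O
      constructor
      · intro h
        by_contra hx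
        apply h
        have h0 : Metric.infDist x Oᶜ = 0 := Metric.infDist_zero_of_mem hx
        rw [h0]
        exact min_eq_right zero_le_one
      · intro hx
        have h1 : x ∉ Oᶜ := fun h => h hx
        have h2 := (hO.isClosed_compl.notMem_iff_infDist_pos hne).1 h1
        exact (lt_min one_pos h2).ne'
    · intro s t t'
      show |min 1 (Metric.infDist (s, t) Oᶜ) - min 1 (Metric.infDist (s, t') Oᶜ)| ≤ _
      refine (abs_min_sub_min_le_max _ _ _ _).trans ?_
      have h1 : |(1 : ℝ) - 1| = 0 := by norm_num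
      rw [h1, max_eq_right (abs_nonneg _)]
      have h2 := (Metric.lipschitz_infDist_pt (Oᶜ)).dist_le_mul (s, t) (s, t')
      rw [Real.dist_eq, NNReal.coe_one, one_mul, Prod.dist_eq, dist_self,
        max_eq_right dist_nonneg] at h2
      exact h2
  · refine ⟨⟨fun _ => 1, continuous_const⟩, ?_, ?_, ?_⟩
    · intro x
      exact ⟨zero_le_one, le_refl _⟩
    · intro x
      have hx : x ∈ O := by
        by_contra h
        exact hne ⟨x, h⟩
      exact ⟨fun _ => hx, fun _ => one_ne_zero⟩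
    · intro s t t'
      show |(1 : ℝ) - 1| ≤ _
      rw [sub_self, abs_zero]
      exact dist_nonneg

theorem pam (ham : HamStmt) (bam : BamStmt) : PamStmt := by
  intro S M _ _ _ _ _
  obtain ⟨K, c, B, B', B0, B'01, B1, B's, Bcov⟩ := bam M
  obtain ⟨h, h', θ, h0, h'01, _, h1, h's, _, _, hcov⟩ := ham
  refine ⟨K, c, fun O hO => ?_⟩
  obtain ⟨ρ, hρ01, hρ0, hρl⟩ := pam_rho S M O hO
  refine ⟨ρ, fun m k => ⟨fun x => h m (ρ x) * B m k x.2,
    ((h m).continuous.comp ρ.continuous).mul ((B m k).continuous.comp continuous_snd)⟩,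
    fun m k => ⟨fun x => h' m (ρ x) * B' m k x.2,
    ((h' m).continuous.comp ρ.continuous).mul ((B' m k).continuous.comp continuous_snd)⟩, ?_⟩
  refine ⟨fun x => (hρ01 x).1, hρ0, hρl, ?_, ?_, ?_, ?_, ?_⟩
  · intro m k x
    exact mul_nonneg (h0 m _) (B0 m k _)
  · intro m k x
    exact ⟨mul_nonneg (h'01 m _).1 (B'01 m k _).1,
      mul_le_one₀ (h'01 m _).2 (B'01 m k _).1 (B'01 m k _).2⟩
  · intro m k x hx
    have hx' : h m (ρ x) * B m k x.2 ≠ 0 := hx
    show h' m (ρ x) * B' m k x.2 = 1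
    rw [h1 m _ (left_ne_zero_of_mul hx'), B1 m k _ (right_ne_zero_of_mul hx'), mul_one]
  · intro m k x hx
    have hx' : h' m (ρ x) * B' m k x.2 ≠ 0 := hx
    obtain ⟨h3, h4⟩ := h's m _ (left_ne_zero_of_mul hx')
    obtain ⟨h5, h6⟩ := B's m k _ (right_ne_zero_of_mul hx')
    exact ⟨h5, h3, h4, h6⟩
  · intro x hx
    have hpos : 0 < ρ x := lt_of_le_of_ne (hρ01 x).1 (Ne.symm ((hρ0 x).2 hx))
    obtain ⟨j, hj1, hj2⟩ := hcov (ρ x) hpos (hρ01 x).2
    have hBK : ∀ m k, B m k x.2 ≠ 0 → k < K m := by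
      intro m k hk
      have h3 := B1 m k x.2 hk
      exact (B's m k x.2 (by rw [h3]; exact one_ne_zero)).1
    show ∑ᶠ α : ℕ × ℕ, h α.1 (ρ x) * B α.1 α.2 x.2 = 1
    have hsub : (Function.support fun α : ℕ × ℕ => h α.1 (ρ x) * B α.1 α.2 x.2) ⊆
        ((({j, j + 1} : Finset ℕ) ×ˢ Finset.range (max (K j) (K (j + 1))) :
          Finset (ℕ × ℕ)) : Set (ℕ × ℕ)) := by
      rintro ⟨m, k⟩ hmk
      have hx' : h m (ρ x) * B m k x.2 ≠ 0 := hmk
      have h3 := hj1 m (left_ne_zero_of_mul hx')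
      have h4 := hBK m k (right_ne_zero_of_mul hx')
      rw [Finset.mem_coe, Finset.mem_product]
      refine ⟨?_, ?_⟩
      · rcases h3 with rfl | rfl <;> simp
      · rw [Finset.mem_range]
        rcases h3 with rfl | rfl
        · exact lt_of_lt_of_le h4 (le_max_left _ _)
        · exact lt_of_lt_of_le h4 (le_max_right _ _)
    rw [finsum_eq_sum_of_support_subset _ hsub, Finset.sum_product]
    have hin : ∀ m, K m ≤ max (K j) (K (j + 1)) →
        ∑ k ∈ Finset.range (max (K j) (K (j + 1))), h m (ρ x) * B m k x.2 = h m (ρ x) := by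
      intro m hm
      rw [← Finset.mul_sum]
      have h3 : ∑ k ∈ Finset.range (max (K j) (K (j + 1))), B m k x.2 =
          ∑ k ∈ Finset.range (K m), B m k x.2 := by
        refine (Finset.sum_subset (Finset.range_subset_range.2 hm) ?_).symm
        intro k _ hk
        by_contra h4
        exact hk (Finset.mem_range.2 (hBK m k h4))
      rw [h3, Bcov m x.2, mul_one]
    rw [Finset.sum_pair (by omega)]
    show (∑ k ∈ Finset.range (max (K j) (K (j + 1))), h j (ρ x) * B j k x.2) +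
      (∑ k ∈ Finset.range (max (K j) (K (j + 1))), h (j + 1) (ρ x) * B (j + 1) k x.2) = 1
    rw [hin j (le_max_left _ _), hin (j + 1) (le_max_right _ _)]
    exact hj2

end Pool.Agent.SSF.H63
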